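import Mathlib

/-!
# The residue identity of type D_2 fails for p = 1

`L p t` is the coefficient of `x_0^(-1) x_1^(-1) x_2^(-1) x_3^(-1) x_4^(-1)` in the product `G_p H_p Δ_p` of the problem
file. The conjecture says that, as a polynomial in `t`, it is a nonzero constant multiple of
`rhs p t = binom(t+p+1/2,4p) binom(t+2p,4p-1) binom(t,4p-1)`. For `p = 1` we compute `L_1(3) = -66` and
`L_1(4) = -1776`, while `rhs 1 3 = 1575/64` and `rhs 1 4 = 5775/8`; hence no constant exists.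

For `t = 3` and `t = 4` all contributing terms are listed by ten indices in a small box (`supp_sub`: the exponents of the
six differences, of the two factors `(x_0-x_1)^(-4)`, `(x_0-x_2)^(-4)`, of `(x_3-x_0)^(-4)` and of `(1+x_4)^t`; the other
five indices are determined by the exponents), so that `L_1(t)` is a finite sum of integers over a fixed denominator,
which the kernel evaluates (`tot3`, `tot4`).
-/

set_option autoImplicit false

namespace Pool.Agent.Results.MP_d8cfe3_al.NotProportional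

/-- `binom(u,k) = u(u-1)⋯(u-k+1)/k!`. -/
def bin (u : ℚ) (k : ℕ) : ℚ := (∏ i ∈ Finset.range k, (u - i)) / (k.factorial : ℚ)

/-- A formal series in `x_0,…,x_4`, written as a family of terms: the index `k : ι` contributes the
term `coef k * x^(expo k)`. -/
structure Ser (ι : Type) where
  expo : ι → Fin 5 → ℤ
  coef : ι → ℚ

/-- The product of two series, multiplied out term by term. -/
def Ser.mul {ι κ : Type} (F : Ser ι) (G : Ser κ) : Ser (ι × κ) :=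
  ⟨fun k => F.expo k.1 + G.expo k.2, fun k => F.coef k.1 * G.coef k.2⟩

/-- The contribution of the term with index `k` to the coefficient of `x^v`. -/
def Ser.contrib {ι : Type} (F : Ser ι) (v : Fin 5 → ℤ) (k : ι) : ℚ :=
  if F.expo k = v then F.coef k else 0

/-- The coefficient of `x^v`: the sum of the coefficients of all the terms with exponent vector `v`. -/
noncomputable def Ser.coeff {ι : Type} (F : Ser ι) (v : Fin 5 → ℤ) : ℚ :=
  ∑ᶠ k : ι, F.contrib v k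

/-- The monomial `x^v`. -/
def mono (v : Fin 5 → ℤ) : Ser Unit := ⟨fun _ => v, fun _ => 1⟩

/-- `(1+x_i)^u = ∑_{k≥0} binom(u,k) x_i^k`. -/
def onePlus (i : Fin 5) (u : ℚ) : Ser ℕ := ⟨fun k => Pi.single i (k : ℤ), fun k => bin u k⟩

/-- `(x_i - x_j)^n = ∑_{k≥0} binom(n,k) x_i^(n-k) (-x_j)^k`. -/
def diffPow (i j : Fin 5) (n : ℤ) : Ser ℕ :=
  ⟨fun k => Pi.single i (n - k) + Pi.single j (k : ℤ), fun k => bin n k * (-1) ^ k⟩

/-- `Δ_p = ∑_{n∈ℤ} binom(n,4p-1) x_0^(n-4p+1) x_4^(-n-1)`. -/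
def Delta (p : ℕ) : Ser ℤ :=
  ⟨fun n => Pi.single 0 (n - 4 * p + 1) + Pi.single 4 (-n - 1), fun n => bin n (4 * p - 1)⟩

/-- `G_p = x_0^(8p-3) (1+x_0)^(6p-2-2t) ∏_{i=1}^4 x_i^(-4p) (1+x_i)^t`. -/
def G (p : ℕ) (t : ℚ) :=
  (((((mono ![8 * p - 3, -(4 * p), -(4 * p), -(4 * p), -(4 * p)]).mul
    (onePlus 0 (6 * p - 2 - 2 * t))).mul (onePlus 1 t)).mul (onePlus 2 t)).mul (onePlus 3 t)).mul
    (onePlus 4 t)

/-- `H_p = (x_0-x_1)^(-4p) (x_0-x_2)^(-4p) (x_3-x_0)^(-4p) ∏_{1≤i<j≤4} (x_i-x_j)^(2p)`. -/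
def H (p : ℕ) :=
  ((((((((diffPow 0 1 (-(4 * p))).mul (diffPow 0 2 (-(4 * p)))).mul (diffPow 3 0 (-(4 * p)))).mul
    (diffPow 1 2 (2 * p))).mul (diffPow 1 3 (2 * p))).mul (diffPow 1 4 (2 * p))).mul
    (diffPow 2 3 (2 * p))).mul (diffPow 2 4 (2 * p))).mul (diffPow 3 4 (2 * p))

/-- `L_p(t)`: the coefficient of `x_0^(-1) x_1^(-1) x_2^(-1) x_3^(-1) x_4^(-1)` in `G_p H_p Δ_p`. -/
noncomputable def L (p : ℕ) (t : ℚ) : ℚ := (((G p t).mul (H p)).mul (Delta p)).coeff (fun _ => -1)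

theorem expo_iff (p : ℕ) (t : ℚ) (a b1 b2 b3 b4 k1 k2 k3 m12 m13 m14 m23 m24 m34 : ℕ) (n : ℤ) :
    (((G p t).mul (H p)).mul (Delta p)).expo
      (((((((((), a), b1), b2), b3), b4)),
        ((((((((k1, k2), k3), m12), m13), m14), m23), m24), m34)), n) = (fun _ => -1) ↔
    ((8 * p - 3 : ℤ) + a + (-(4 * p) - k1) + (-(4 * p) - k2) + k3 + (n - 4 * p + 1) = -1 ∧
    -(4 * p : ℤ) + b1 + k1 + (2 * p - m12) + (2 * p - m13) + (2 * p - m14) = -1 ∧
    -(4 * p : ℤ) + b2 + k2 + m12 + (2 * p - m23) + (2 * p - m24) = -1 ∧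
    -(4 * p : ℤ) + b3 + (-(4 * p) - k3) + m13 + m23 + (2 * p - m34) = -1 ∧
    -(4 * p : ℤ) + b4 + m14 + m24 + m34 + (-n - 1) = -1) := by
  simp only [funext_iff, Fin.forall_fin_succ, Ser.mul, G, H, Delta, mono, onePlus, diffPow,
    Pi.add_apply, Pi.single_apply]
  simp
  constructor
  · rintro ⟨h0, h1, h2, h3, h4⟩
    refine ⟨?_, ?_, ?_, ?_, ?_⟩ <;> omega
  · rintro ⟨h0, h1, h2, h3, h4⟩
    refine ⟨?_, ?_, ?_, ?_, ?_⟩ <;> omega

theorem coef_eq (p : ℕ) (t : ℚ) (a b1 b2 b3 b4 k1 k2 k3 m12 m13 m14 m23 m24 m34 : ℕ) (n : ℤ) :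
    (((G p t).mul (H p)).mul (Delta p)).coef
      (((((((((), a), b1), b2), b3), b4)),
        ((((((((k1, k2), k3), m12), m13), m14), m23), m24), m34)), n) =
    (1 * bin (6 * p - 2 - 2 * t) a * bin t b1 * bin t b2 * bin t b3 * bin t b4) *
    ((bin ((-(4 * p) : ℤ) : ℚ) k1 * (-1) ^ k1) * (bin ((-(4 * p) : ℤ) : ℚ) k2 * (-1) ^ k2) *
      (bin ((-(4 * p) : ℤ) : ℚ) k3 * (-1) ^ k3) *
      (bin ((2 * p : ℤ) : ℚ) m12 * (-1) ^ m12) * (bin ((2 * p : ℤ) : ℚ) m13 * (-1) ^ m13) *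
      (bin ((2 * p : ℤ) : ℚ) m14 * (-1) ^ m14) * (bin ((2 * p : ℤ) : ℚ) m23 * (-1) ^ m23) *
      (bin ((2 * p : ℤ) : ℚ) m24 * (-1) ^ m24) * (bin ((2 * p : ℤ) : ℚ) m34 * (-1) ^ m34)) *
    bin n (4 * p - 1) := rfl

theorem bin_succ (u : ℚ) (k : ℕ) : bin u (k + 1) = bin u k * (u - k) / (k + 1) := by
  unfold bin
  rw [Finset.prod_range_succ, Nat.factorial_succ]
  push_cast
  have h1 : (k.factorial : ℚ) ≠ 0 := by exact_mod_cast Nat.factorial_ne_zero k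
  have h2 : (k : ℚ) + 1 ≠ 0 := by positivity
  field_simp

theorem bin_zero (u : ℚ) : bin u 0 = 1 := by simp [bin]

theorem bin_neg4 (k : ℕ) : bin (-4) k * (-1) ^ k = ((k + 1) * (k + 2) * (k + 3) : ℚ) / 6 := by
  induction k with
  | zero => rw [bin_zero]; norm_num
  | succ k ih =>
    have h2 : (k : ℚ) + 1 ≠ 0 := by positivity
    rw [bin_succ, pow_succ]
    have : bin (-4) k * (-4 - (k : ℚ)) / (k + 1) * ((-1) ^ k * -1) =
        (bin (-4) k * (-1) ^ k) * (4 + k) / (k + 1) := by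
      field_simp
      ring
    rw [this, ih]
    push_cast
    field_simp
    ring

theorem bin_neg2 (k : ℕ) : bin (-2) k * (-1) ^ k = (k + 1 : ℚ) := by
  induction k with
  | zero => rw [bin_zero]; norm_num
  | succ k ih =>
    have h2 : (k : ℚ) + 1 ≠ 0 := by positivity
    rw [bin_succ, pow_succ]
    have : bin (-2) k * (-2 - (k : ℚ)) / (k + 1) * ((-1) ^ k * -1) =
        (bin (-2) k * (-1) ^ k) * (2 + k) / (k + 1) := by
      field_simp
      ring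
    rw [this, ih]
    push_cast
    field_simp
    ring

theorem bin_big (t k : ℕ) (h : t < k) : bin t k = 0 := by
  unfold bin
  rw [Finset.prod_eq_zero (Finset.mem_range.2 h) (by simp)]
  simp

theorem bin_three' (n : ℤ) : bin n 3 = ((n * (n - 1) * (n - 2) : ℤ) : ℚ) / 6 := by
  simp [bin, Finset.prod_range_succ, Nat.factorial]

def s2 : ℕ → ℤ
  | 0 => 1
  | 1 => -2
  | 2 => 1
  | _ => 0

def T3 : ℕ → ℤ
  | 0 => 1
  | 1 => 3
  | 2 => 3
  | 3 => 1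
  | _ => 0

def T4 : ℕ → ℤ
  | 0 => 1
  | 1 => 4
  | 2 => 6
  | 3 => 4
  | 4 => 1
  | _ => 0

theorem bin_s2 (m : ℕ) : bin 2 m * (-1) ^ m = (s2 m : ℚ) := by
  match m with
  | 0 => norm_num [bin, s2]
  | 1 => norm_num [bin, s2, Finset.prod_range_succ]
  | 2 => norm_num [bin, s2, Finset.prod_range_succ, Nat.factorial]
  | m + 3 =>
    have := bin_big 2 (m + 3) (by omega)
    push_cast at this
    rw [this]
    simp [s2]

theorem bin_T3 (m : ℕ) : bin 3 m = (T3 m : ℚ) := by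
  match m with
  | 0 => norm_num [bin, T3]
  | 1 => norm_num [bin, T3, Finset.prod_range_succ]
  | 2 => norm_num [bin, T3, Finset.prod_range_succ, Nat.factorial]
  | 3 => norm_num [bin, T3, Finset.prod_range_succ, Nat.factorial]
  | m + 4 =>
    have := bin_big 3 (m + 4) (by omega)
    push_cast at this
    rw [this]
    simp [T3]

theorem bin_T4 (m : ℕ) : bin 4 m = (T4 m : ℚ) := by
  match m with
  | 0 => norm_num [bin, T4]
  | 1 => norm_num [bin, T4, Finset.prod_range_succ]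
  | 2 => norm_num [bin, T4, Finset.prod_range_succ, Nat.factorial]
  | 3 => norm_num [bin, T4, Finset.prod_range_succ, Nat.factorial]
  | 4 => norm_num [bin, T4, Finset.prod_range_succ, Nat.factorial]
  | m + 5 =>
    have := bin_big 4 (m + 5) (by omega)
    push_cast at this
    rw [this]
    simp [T4]

def sg (a : ℕ) : ℤ := if a % 2 = 0 then 1 else -1

theorem sg_eq (a : ℕ) : (sg a : ℚ) = (-1) ^ a := by
  unfold sg
  rcases Nat.even_or_odd a with h | h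
  · rw [if_pos (Nat.even_iff.1 h), h.neg_one_pow]; norm_num
  · rw [if_neg (by rw [Nat.odd_iff.1 h]; norm_num), h.neg_one_pow]; norm_num

def q (k : ℕ) : ℤ := (k + 1) * (k + 2) * (k + 3)

def W3 (a : ℕ) : ℤ := sg a * (a + 1)

def W4 (a : ℕ) : ℤ := sg a * q a

theorem bin_W3 (a : ℕ) : bin (-2) a = (W3 a : ℚ) / 1 := by
  have h := bin_neg2 a
  have h1 : ((-1 : ℚ) ^ a) * (-1) ^ a = 1 := by rw [← mul_pow]; norm_num
  unfold W3
  push_cast
  rw [sg_eq, ← h]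
  calc bin (-2) a = bin (-2) a * ((-1) ^ a * (-1) ^ a) := by rw [h1, mul_one]
    _ = _ := by ring

theorem bin_W4 (a : ℕ) : bin (-4) a = (W4 a : ℚ) / 6 := by
  have h := bin_neg4 a
  have h1 : ((-1 : ℚ) ^ a) * (-1) ^ a = 1 := by rw [← mul_pow]; norm_num
  unfold W4 q
  push_cast
  rw [sg_eq, mul_div_assoc, ← h]
  calc bin (-4) a = bin (-4) a * ((-1) ^ a * (-1) ^ a) := by rw [h1, mul_one]
    _ = _ := by ring

/-- summation by recursion -/
def S : ℕ → (ℕ → ℤ) → ℤ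
  | 0, _ => 0
  | n + 1, f => S n f + f n

theorem S_eq (n : ℕ) (f : ℕ → ℤ) : S n f = ∑ i ∈ Finset.range n, f i := by
  induction n with
  | zero => rfl
  | succ n ih => rw [S, ih, Finset.sum_range_succ]

def tot (T W : ℕ → ℤ) : ℤ :=
  S 3 fun m12 => S 3 fun m13 => S 3 fun m14 => S 3 fun m23 => S 3 fun m24 => S 3 fun m34 =>
  S 4 fun k1 => S 4 fun k2 =>
    if 3 + k1 ≤ m12 + m13 + m14 ∧ 1 + k2 + m12 ≤ m23 + m24 then
      S 4 fun k3 => S 5 fun b4 =>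
        if k3 + (b4 + m14 + m24 + m34) ≤ 9 + k1 + k2 ∧ m13 + m23 ≤ 5 + k3 + m34 then
          (W (9 + k1 + k2 - (k3 + (b4 + m14 + m24 + m34))) * T (m12 + m13 + m14 - (3 + k1)) *
            T (m23 + m24 - (1 + k2 + m12)) * T (5 + k3 + m34 - (m13 + m23)) * T b4) *
          (q k1 * q k2 * q k3 * s2 m12 * s2 m13 * s2 m14 * s2 m23 * s2 m24 * s2 m34) *
          (((b4 + m14 + m24 + m34 : ℤ) - 4) * ((b4 + m14 + m24 + m34 : ℤ) - 4 - 1) *
            ((b4 + m14 + m24 + m34 : ℤ) - 4 - 2))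
        else 0
    else 0

set_option maxRecDepth 100000 in
theorem tot3 : tot T3 W3 = -66 * 6 ^ 4 := by decide +kernel

set_option maxRecDepth 100000 in
theorem tot4 : tot T4 W4 = -1776 * 6 ^ 5 := by decide +kernel

abbrev I := ((((((Unit × ℕ) × ℕ) × ℕ) × ℕ) × ℕ) ×
  ((((((((ℕ × ℕ) × ℕ) × ℕ) × ℕ) × ℕ) × ℕ) × ℕ) × ℕ)) × ℤ

abbrev J := ℕ × ℕ × ℕ × ℕ × ℕ × ℕ × ℕ × ℕ × ℕ × ℕ

def phi : J → I := fun ⟨m12, m13, m14, m23, m24, m34, k1, k2, k3, b4⟩ =>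
  (((((((((), 9 + k1 + k2 - (k3 + (b4 + m14 + m24 + m34))), m12 + m13 + m14 - (3 + k1)),
    m23 + m24 - (1 + k2 + m12)), 5 + k3 + m34 - (m13 + m23)), b4)),
    ((((((((k1, k2), k3), m12), m13), m14), m23), m24), m34)), (b4 + m14 + m24 + m34 : ℤ) - 4)

theorem phi_inj : Function.Injective phi := by
  rintro ⟨m12, m13, m14, m23, m24, m34, k1, k2, k3, b4⟩
    ⟨m12', m13', m14', m23', m24', m34', k1', k2', k3', b4'⟩ h
  simp only [phi, Prod.mk.injEq] at h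
  obtain ⟨⟨⟨⟨⟨⟨_, _⟩, _⟩, _⟩, hb4⟩, ⟨⟨⟨⟨⟨⟨⟨hk1, hk2⟩, hk3⟩, h12⟩, h13⟩, h14⟩, h23⟩, h24⟩, h34⟩, _⟩ := h
  subst hb4 hk1 hk2 hk3 h12 h13 h14 h23 h24 h34
  rfl

def box : Finset J :=
  Finset.range 3 ×ˢ Finset.range 3 ×ˢ Finset.range 3 ×ˢ Finset.range 3 ×ˢ Finset.range 3 ×ˢ
    Finset.range 3 ×ˢ Finset.range 4 ×ˢ Finset.range 4 ×ˢ Finset.range 4 ×ˢ Finset.range 5

def gI (T W : ℕ → ℤ) : J → ℤ := fun ⟨m12, m13, m14, m23, m24, m34, k1, k2, k3, b4⟩ =>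
  if 3 + k1 ≤ m12 + m13 + m14 ∧ 1 + k2 + m12 ≤ m23 + m24 then
    if k3 + (b4 + m14 + m24 + m34) ≤ 9 + k1 + k2 ∧ m13 + m23 ≤ 5 + k3 + m34 then
      (W (9 + k1 + k2 - (k3 + (b4 + m14 + m24 + m34))) * T (m12 + m13 + m14 - (3 + k1)) *
        T (m23 + m24 - (1 + k2 + m12)) * T (5 + k3 + m34 - (m13 + m23)) * T b4) *
      (q k1 * q k2 * q k3 * s2 m12 * s2 m13 * s2 m14 * s2 m23 * s2 m24 * s2 m34) *
      (((b4 + m14 + m24 + m34 : ℤ) - 4) * ((b4 + m14 + m24 + m34 : ℤ) - 4 - 1) *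
        ((b4 + m14 + m24 + m34 : ℤ) - 4 - 2))
    else 0
  else 0

theorem tot_eq (T W : ℕ → ℤ) : tot T W = ∑ j ∈ box, gI T W j := by
  unfold tot box gI
  rw [S_eq, Finset.sum_product]; refine Finset.sum_congr rfl fun m12 _ => ?_
  rw [S_eq, Finset.sum_product]; refine Finset.sum_congr rfl fun m13 _ => ?_
  rw [S_eq, Finset.sum_product]; refine Finset.sum_congr rfl fun m14 _ => ?_
  rw [S_eq, Finset.sum_product]; refine Finset.sum_congr rfl fun m23 _ => ?_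
  rw [S_eq, Finset.sum_product]; refine Finset.sum_congr rfl fun m24 _ => ?_
  rw [S_eq, Finset.sum_product]; refine Finset.sum_congr rfl fun m34 _ => ?_
  rw [S_eq, Finset.sum_product]; refine Finset.sum_congr rfl fun k1 _ => ?_
  rw [S_eq, Finset.sum_product]; refine Finset.sum_congr rfl fun k2 _ => ?_
  by_cases h : 3 + k1 ≤ m12 + m13 + m14 ∧ 1 + k2 + m12 ≤ m23 + m24
  · rw [if_pos h, S_eq, Finset.sum_product]; refine Finset.sum_congr rfl fun k3 _ => ?_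
    rw [S_eq]; refine Finset.sum_congr rfl fun b4 _ => ?_
    exact (if_pos h).symm
  · rw [if_neg h]
    exact (Finset.sum_eq_zero fun y _ => if_neg h).symm

theorem alg (w c t1 t2 t3 t4 q1 q2 q3 r1 r2 r3 r4 r5 r6 n0 : ℚ) :
    (1 * (w / c) * t1 * t2 * t3 * t4) *
      ((q1 / 6) * (q2 / 6) * (q3 / 6) * r1 * r2 * r3 * r4 * r5 * r6) * (n0 / 6) =
    ((w * t1 * t2 * t3 * t4) * (q1 * q2 * q3 * r1 * r2 * r3 * r4 * r5 * r6) * n0) / (6 ^ 4 * c) := by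
  ring

theorem bin_q (k : ℕ) : bin (-4) k * (-1) ^ k = (q k : ℚ) / 6 := by
  rw [bin_neg4]
  unfold q
  push_cast
  rfl

theorem contrib_phi (t : ℚ) (T W : ℕ → ℤ) (c : ℚ) (hT : ∀ b, bin t b = T b)
    (hW : ∀ a, bin (6 * ((1 : ℕ) : ℚ) - 2 - 2 * t) a = W a / c) (j : J) :
    (((G 1 t).mul (H 1)).mul (Delta 1)).contrib (fun _ => -1) (phi j) = (gI T W j : ℚ) / (6 ^ 4 * c) := by
  obtain ⟨m12, m13, m14, m23, m24, m34, k1, k2, k3, b4⟩ := j
  have e4 : ((-(4 * ((1 : ℕ) : ℤ)) : ℤ) : ℚ) = -4 := by norm_num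
  have e2 : (((2 * ((1 : ℕ) : ℤ)) : ℤ) : ℚ) = 2 := by norm_num
  unfold Ser.contrib phi gI
  simp only
  by_cases h1 : 3 + k1 ≤ m12 + m13 + m14 ∧ 1 + k2 + m12 ≤ m23 + m24
  · by_cases h2 : k3 + (b4 + m14 + m24 + m34) ≤ 9 + k1 + k2 ∧ m13 + m23 ≤ 5 + k3 + m34
    · rw [if_pos h1, if_pos h2, if_pos ((expo_iff _ _ _ _ _ _ _ _ _ _ _ _ _ _ _ _ _).2
        ⟨by omega, by omega, by omega, by omega, by omega⟩), coef_eq, e4, e2]
      rw [bin_q, bin_q, bin_q, bin_s2, bin_s2, bin_s2, bin_s2, bin_s2, bin_s2, hT, hT, hT,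
        hT, hW, show 4 * 1 - 1 = 3 from rfl, bin_three', alg]
      simp only [Int.cast_mul]
    · rw [if_pos h1, if_neg h2, if_neg]
      · simp
      · intro he
        obtain ⟨g0, g1, g2, g3, g4⟩ := (expo_iff _ _ _ _ _ _ _ _ _ _ _ _ _ _ _ _ _).1 he
        omega
  · rw [if_neg h1, if_neg]
    · simp
    · intro he
      obtain ⟨g0, g1, g2, g3, g4⟩ := (expo_iff _ _ _ _ _ _ _ _ _ _ _ _ _ _ _ _ _).1 he
      omega

theorem supp_sub (t : ℚ) (T : ℕ → ℤ) (hT : ∀ b, bin t b = T b) (hT0 : ∀ b, 4 < b → T b = 0) :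
    Function.support ((((G 1 t).mul (H 1)).mul (Delta 1)).contrib (fun _ => -1)) ⊆ ↑(box.map ⟨phi, phi_inj⟩) := by
  rintro ⟨⟨⟨⟨⟨⟨⟨⟨⟩, a⟩, b1⟩, b2⟩, b3⟩, b4⟩,
    ⟨⟨⟨⟨⟨⟨⟨⟨k1, k2⟩, k3⟩, m12⟩, m13⟩, m14⟩, m23⟩, m24⟩, m34⟩⟩, n⟩ hx
  rw [Function.mem_support] at hx
  unfold Ser.contrib at hx
  have e2 : (((2 * ((1 : ℕ) : ℤ)) : ℤ) : ℚ) = (2 : ℕ) := by norm_num
  by_cases he : (((G 1 t).mul (H 1)).mul (Delta 1)).expo
      (((((((((), a), b1), b2), b3), b4)),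
        ((((((((k1, k2), k3), m12), m13), m14), m23), m24), m34)), n) = (fun _ => -1)
  · rw [if_pos he, coef_eq] at hx
    obtain ⟨g0, g1, g2, g3, g4⟩ := (expo_iff _ _ _ _ _ _ _ _ _ _ _ _ _ _ _ _ _).1 he
    have hb : ∀ b, bin t b ≠ 0 → b ≤ 4 := by
      intro b h
      by_contra hlt
      exact h (by rw [hT, hT0 b (by omega)]; norm_num)
    have hm : ∀ m, bin (((2 * ((1 : ℕ) : ℤ)) : ℤ) : ℚ) m * (-1) ^ m ≠ 0 → m ≤ 2 := by
      intro m h
      by_contra hlt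
      exact h (by rw [e2, bin_big 2 m (by omega)]; norm_num)
    simp only [mul_ne_zero_iff] at hx
    simp only [mul_ne_zero_iff] at hm
    obtain ⟨⟨⟨⟨⟨⟨⟨_, _⟩, hb1⟩, hb2⟩, hb3⟩, hb4⟩,
      ⟨⟨⟨⟨⟨⟨⟨⟨_, _⟩, _⟩, h12⟩, h13⟩, h14⟩, h23⟩, h24⟩, h34⟩⟩, _⟩ := hx
    have := hb _ hb1
    have := hb _ hb2
    have := hb _ hb3
    have := hb _ hb4
    have := hm _ h12
    have := hm _ h13
    have := hm _ h14
    have := hm _ h23
    have := hm _ h24
    have := hm _ h34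
    rw [Finset.mem_coe, Finset.mem_map]
    refine ⟨(m12, m13, m14, m23, m24, m34, k1, k2, k3, b4), ?_, ?_⟩
    · simp only [box, Finset.mem_product, Finset.mem_range]
      omega
    · simp only [Function.Embedding.coeFn_mk, phi, Prod.mk.injEq, and_true, true_and]
      omega
  · exact absurd (if_neg he) hx

theorem L_eval (t : ℚ) (T W : ℕ → ℤ) (c : ℚ) (hT : ∀ b, bin t b = T b)
    (hT0 : ∀ b, 4 < b → T b = 0)
    (hW : ∀ a, bin (6 * ((1 : ℕ) : ℚ) - 2 - 2 * t) a = W a / c) :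
    L 1 t = (tot T W : ℚ) / (6 ^ 4 * c) := by
  unfold L Ser.coeff
  rw [finsum_eq_sum_of_support_subset _ (supp_sub t T hT hT0),
    Finset.sum_map, tot_eq]
  push_cast
  rw [Finset.sum_div]
  exact Finset.sum_congr rfl fun j _ => contrib_phi t T W c hT hW j

theorem L_three : L 1 3 = -66 := by
  rw [L_eval 3 T3 W3 1 bin_T3, tot3]
  · norm_num
  · intro b hb
    match b, hb with
    | b + 5, _ => rfl
  · intro a
    rw [← bin_W3]
    norm_num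

theorem L_four : L 1 4 = -1776 := by
  rw [L_eval 4 T4 W4 6 bin_T4, tot4]
  · norm_num
  · intro b hb
    match b, hb with
    | b + 5, _ => rfl
  · intro a
    rw [← bin_W4]
    norm_num

/-- Only finitely many terms contribute to the coefficient which defines `L_p(t)`. -/
theorem fin_supp (p : ℕ) (t : ℚ) :
    (Function.support ((((G p t).mul (H p)).mul (Delta p)).contrib (fun _ => -1))).Finite := by
  let R : Finset ℕ := Finset.range (40 * p + 10)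
  let Z : Finset ℤ := Finset.Icc (-(40 * p + 10)) (40 * p + 10)
  let B : Finset I := (((((((Finset.univ : Finset Unit) ×ˢ R) ×ˢ R) ×ˢ R) ×ˢ R) ×ˢ R) ×ˢ
    ((((((((R ×ˢ R) ×ˢ R) ×ˢ R) ×ˢ R) ×ˢ R) ×ˢ R) ×ˢ R) ×ˢ R)) ×ˢ Z
  refine Set.Finite.subset (Finset.finite_toSet B) ?_
  rintro ⟨⟨⟨⟨⟨⟨⟨⟨⟩, a⟩, b1⟩, b2⟩, b3⟩, b4⟩,
    ⟨⟨⟨⟨⟨⟨⟨⟨k1, k2⟩, k3⟩, m12⟩, m13⟩, m14⟩, m23⟩, m24⟩, m34⟩⟩, n⟩ hx
  rw [Function.mem_support] at hx
  unfold Ser.contrib at hx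
  have e2 : (((2 * (p : ℤ)) : ℤ) : ℚ) = ((2 * p : ℕ) : ℚ) := by push_cast; ring
  by_cases he : (((G p t).mul (H p)).mul (Delta p)).expo
      (((((((((), a), b1), b2), b3), b4)),
        ((((((((k1, k2), k3), m12), m13), m14), m23), m24), m34)), n) = (fun _ => -1)
  · rw [if_pos he, coef_eq] at hx
    obtain ⟨g0, g1, g2, g3, g4⟩ := (expo_iff _ _ _ _ _ _ _ _ _ _ _ _ _ _ _ _ _).1 he
    have hm : ∀ m, bin (((2 * (p : ℤ)) : ℤ) : ℚ) m ≠ 0 ∧ ((-1 : ℚ)) ^ m ≠ 0 → m ≤ 2 * p := by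
      rintro m ⟨h, _⟩
      by_contra hlt
      exact h (by rw [e2, bin_big (2 * p) m (by omega)])
    simp only [mul_ne_zero_iff] at hx
    obtain ⟨⟨⟨⟨⟨⟨⟨_, _⟩, hb1⟩, hb2⟩, hb3⟩, hb4⟩,
      ⟨⟨⟨⟨⟨⟨⟨⟨_, _⟩, _⟩, h12⟩, h13⟩, h14⟩, h23⟩, h24⟩, h34⟩⟩, _⟩ := hx
    have := hm _ h12
    have := hm _ h13
    have := hm _ h14
    have := hm _ h23
    have := hm _ h24
    have := hm _ h34
    simp only [B, R, Z, Finset.coe_product, Set.mem_prod, Finset.mem_coe, Finset.mem_range,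
      Finset.mem_Icc, Finset.mem_univ, true_and]
    omega
  · exact absurd (if_neg he) hx

/-- The polynomial on the right-hand side of the conjectured identity (without the constant `A_p`). -/
def rhs (p : ℕ) (t : ℚ) : ℚ :=
  bin (t + p + 1 / 2) (4 * p) * bin (t + 2 * p) (4 * p - 1) * bin t (4 * p - 1)

theorem rhs_three : rhs 1 3 = 1575 / 64 := by
  norm_num [rhs, bin, Finset.prod_range_succ, Nat.factorial]

theorem rhs_four : rhs 1 4 = 5775 / 8 := by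
  norm_num [rhs, bin, Finset.prod_range_succ, Nat.factorial]

/-- Only finitely many terms contribute to `L_p(t)` (for all `p` and `t`), and for `p = 1` the polynomial `L_p(t)` is
not a constant multiple of the right-hand side: `L_1(3) = -66`, `L_1(4) = -1776`, whereas the right-hand side
(without the constant) is `1575/64` for `t = 3` and `5775/8` for `t = 4`. -/
theorem result :
    (∀ (p : ℕ) (t : ℚ),
      (Function.support ((((G p t).mul (H p)).mul (Delta p)).contrib (fun _ => -1))).Finite) ∧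
    L 1 3 = -66 ∧ L 1 4 = -1776 ∧
    ¬ ∃ A : ℂ, ∀ t : ℚ, ((L 1 t : ℚ) : ℂ) = A * ((rhs 1 t : ℚ) : ℂ) := by
  refine ⟨fin_supp, L_three, L_four, ?_⟩
  rintro ⟨A, hA⟩
  have h3 := hA 3
  have h4 := hA 4
  rw [L_three, rhs_three] at h3
  rw [L_four, rhs_four] at h4
  push_cast at h3 h4
  have e3 : A = -1408 / 525 := by linear_combination (-64 / 1575) * h3
  rw [e3] at h4
  norm_num at h4

end Pool.Agent.Results.MP_d8cfe3_al.NotProportional
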